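import Mathlib
import Pool.Agent.Y532.GA.Spec

/-!
# The `n`-summand abc conjecture with exponent `2 n - 5 + ε` fails for every `n ≥ 34`

Additive relations between monomials in `T, T + 1, T - 1` with `n` terms, of degree `2 (2 n - 4)`, are built by gluing
copies of three relations, with `n = 10, 11, 12`; they are specialized at `T = 2 ^ k`.
-/

set_option autoImplicit false

namespace Pool.Agent.Results.MP_7bfa24_nt.AllLargeN

/-- an admissible `n`-tuple: sum zero, coprime, no vanishing proper subsum -/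
def Admissible {n : ℕ} (x : Fin n → ℤ) : Prop :=
  ∑ i, x i = 0 ∧ Finset.univ.gcd x = 1 ∧
    ∀ I : Finset (Fin n), I.Nonempty → I ≠ Finset.univ → ∑ i ∈ I, x i ≠ 0

/-- the radical of an integer: the product of its prime factors -/
def rad (m : ℤ) : ℕ := m.natAbs.primeFactors.prod id

/-- For every `n ≥ 34`, and for `n = 10, 11, 12, 18, ..., 22, 26, ..., 32`, every exponent `θ < 2 n - 4` and every
`C` there is an admissible `n`-tuple with `max |x i| > C * rad (x 1 * ... * x n) ^ θ`. -/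
theorem result (n : ℕ)
    (hn : (10 ≤ n ∧ n ≤ 12) ∨ (18 ≤ n ∧ n ≤ 22) ∨ (26 ≤ n ∧ n ≤ 32) ∨ 34 ≤ n)
    (θ : ℝ) (hθ : θ < 2 * (n : ℝ) - 4) (C : ℝ) :
    ∃ x : Fin n → ℤ, Admissible x ∧ ∃ i, C * (rad (∏ j, x j) : ℝ) ^ θ < ((|x i| : ℤ) : ℝ) := by
  have h := Pool.Agent.Y532.GA.ex_all n hn
  have hn2 : n - 2 + 2 = n := by omega
  have hθ' : θ < 2 * ((n - 2 : ℕ) : ℝ) := by
    have : ((n - 2 : ℕ) : ℝ) = (n : ℝ) - 2 := by
      rw [Nat.cast_sub (by omega)]
      norm_num
    rw [this]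
    linarith
  obtain ⟨x, h1, h2, h3, i, h4⟩ := Pool.Agent.Y532.GA.fails h hθ' C
  generalize n - 2 = m at *
  subst hn2
  exact ⟨x, ⟨h1, h2, h3⟩, i, h4⟩

end Pool.Agent.Results.MP_7bfa24_nt.AllLargeN
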